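import Pool.Agent.Helper92.TSP.M33

/-! MP_399332_lc, own form of the negative answer with a power gain: for every `a < 11/10` there are
arbitrarily large finite metric spaces all of whose master tours have competitive ratio larger than
`C (log n) ^ a`. -/

set_option autoImplicit false

namespace Pool.Agent.Results.MP_399332_lc.Full

/-- Cost of the cyclic ordering that visits the points of the list `σ` in order and returns. -/
noncomputable def cost {X : Type} [MetricSpace X] (σ : List X) : ℝ :=
  ((σ.zip (σ.rotate 1)).map (fun p => dist p.1 p.2)).sum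

private theorem cost_short {X : Type} [MetricSpace X] (σ : List X) (h : σ.length ≤ 1) :
    cost σ = 0 := by
  match σ, h with
  | [], _ => simp [cost]
  | [x], _ => simp [cost]

private theorem length_eq {X : Type} [DecidableEq X] (σ : List X) (hσ : σ.Nodup) (S : Finset X)
    (h : ∀ x, x ∈ σ ↔ x ∈ S) : σ.length = S.card := by
  have : σ.toFinset = S := by
    ext x
    rw [List.mem_toFinset, h]
  rw [← this, List.toFinset_card_of_nodup hσ]

private theorem exists_k (b : ℝ) (hb : b < 11 / 10) :
    ∃ k : ℕ, 1 ≤ k ∧ b * (10 * k + 5) ≤ 11 * k - 1 := by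
  obtain ⟨k, hk⟩ := exists_nat_ge ((5 * b + 1) / (11 - 10 * b))
  have h0 : 0 < 11 - 10 * b := by linarith
  refine ⟨k + 1, by omega, ?_⟩
  rw [div_le_iff₀ h0] at hk
  push_cast
  nlinarith

/-- For every real `a < 11/10`, every constant `C` and every `N` there is a finite metric space `X`
with `n ≥ N` points such that every master tour `τ` of `X` (a list of all points without
repetition) has a subset `S` with at least two points and a tour `σ` of `S` with
`cost (τ|S) > C (log n)^a cost σ`. -/
theorem result (a : ℝ) (ha : a < 11 / 10) (C : ℝ) (N : ℕ) :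
    ∃ (X : Type) (_ : Fintype X) (_ : DecidableEq X) (_ : MetricSpace X),
      N ≤ Fintype.card X ∧ 2 ≤ Fintype.card X ∧
      ∀ τ : List X, τ.Nodup → (∀ x, x ∈ τ) →
        ∃ (S : Finset X) (σ : List X), 2 ≤ S.card ∧ σ.Nodup ∧ (∀ x, x ∈ σ ↔ x ∈ S) ∧
          C * Real.log (Fintype.card X) ^ a * cost σ < cost (τ.filter (fun x => x ∈ S)) := by
  -- an exponent between `a` and `11/10`
  set b : ℝ := (a + 11 / 10) / 2 with hb
  have hab : a < b := by rw [hb]; linarith
  have hb1 : b < 11 / 10 := by rw [hb]; linarith
  obtain ⟨k, hk1, hk⟩ := exists_k (max b 0) (max_lt hb1 (by norm_num))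
  -- absorb the constant
  have htend : Filter.Tendsto (fun n : ℕ => Real.log (n : ℝ) ^ (b - a)) Filter.atTop
      Filter.atTop :=
    (tendsto_rpow_atTop (by linarith)).comp
      (Real.tendsto_log_atTop.comp tendsto_natCast_atTop_atTop)
  obtain ⟨N1, hN1⟩ := Filter.eventually_atTop.1 (htend.eventually_ge_atTop C)
  obtain ⟨X, iF, iD, d, hmet, hcard, hX⟩ := Pool.Agent.TSP92.main_power k hk1 (max b 0)
    (le_max_right _ _) hk (N + N1 + 3)
  let iM : MetricSpace X :=
    { dist := d
      dist_self := fun x => (hmet.zero x x).2 rfl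
      dist_comm := hmet.symm
      dist_triangle := hmet.tri
      eq_of_dist_eq_zero := fun {x y} hxy => (hmet.zero x y).1 hxy }
  refine ⟨X, iF, iD, iM, by omega, by omega, ?_⟩
  intro τ hτ hall
  obtain ⟨S, σ, hσ, hσS, hlt⟩ := hX τ hτ hall
  have e1 : Pool.Agent.TSP92.tcost d σ = cost σ := rfl
  have e2 : Pool.Agent.TSP92.tcost d (τ.filter (fun x => decide (x ∈ S))) =
      cost (τ.filter (fun x => x ∈ S)) := rfl
  rw [e1, e2] at hlt
  have hcost0 : 0 ≤ cost σ := by
    unfold cost
    apply List.sum_nonneg
    intro y hy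
    rw [List.mem_map] at hy
    obtain ⟨p, _, rfl⟩ := hy
    exact dist_nonneg
  have hlog1 : 1 ≤ Real.log (Fintype.card X) := by
    have h3 : (3 : ℝ) ≤ Fintype.card X := by
      have : 3 ≤ Fintype.card X := by omega
      exact_mod_cast this
    rw [Real.le_log_iff_exp_le (by linarith)]
    have := Real.exp_one_lt_d9
    linarith
  have hC : C ≤ Real.log (Fintype.card X) ^ (b - a) := hN1 _ (by omega)
  have hle : C * Real.log (Fintype.card X) ^ a ≤ Real.log (Fintype.card X) ^ (max b 0) := by
    calc C * Real.log (Fintype.card X) ^ a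
        ≤ Real.log (Fintype.card X) ^ (b - a) * Real.log (Fintype.card X) ^ a := by
          gcongr
      _ = Real.log (Fintype.card X) ^ b := by
          rw [← Real.rpow_add (by linarith)]
          congr 1
          ring
      _ ≤ _ := Real.rpow_le_rpow_of_exponent_le hlog1 (le_max_left _ _)
  refine ⟨S, σ, ?_, hσ, hσS, lt_of_le_of_lt (mul_le_mul_of_nonneg_right hle hcost0) hlt⟩
  by_contra hS
  have hS1 : S.card ≤ 1 := by omega
  have l1 : σ.length ≤ 1 := by rw [length_eq σ hσ S hσS]; exact hS1
  have l2 : (τ.filter (fun x => decide (x ∈ S))).length ≤ 1 := by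
    rw [length_eq _ (hτ.filter _) S (fun x => by simp [hall x])]
    exact hS1
  rw [cost_short σ l1, cost_short _ l2] at hlt
  simp at hlt

end Pool.Agent.Results.MP_399332_lc.Full
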